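import Pool.Agent.Lib.MP_1d5e93_al.Main

set_option autoImplicit false

namespace Pool.Agent.Results.MP_1d5e93_al.ChordalReg

open Pool.Agent.Lib.MP_1d5e93_al Pool.Agent.Lib.MP_b26ec7_al

universe u

/-- For every field, every chordal graph and every `1 ≤ k ≤ ν(G)`,
`reg I(G)^{[k]} = aim(G, k) + k`. -/
theorem result (K : Type u) [Field K] (n : ℕ) (G : SimpleGraph (Fin n)) (hG : Chordal G)
    (k : ℕ) (h1 : 1 ≤ k) (h2 : k ≤ nu G) :
    reg (sqPow K G k) = (aim G k : ℤ) + k :=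
  main hG h1 h2

end Pool.Agent.Results.MP_1d5e93_al.ChordalReg
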